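import Mathlib

/-!
# Total influence of a threshold of a sum of independent terms
-/

set_option autoImplicit false

set_option linter.unusedSectionVars false

namespace Pool.Agent.Helper62.EV

open Finset

variable {ι V : Type*} [Fintype ι] [DecidableEq ι] [Fintype V]

/-- exchange the value at `l` -/
def sw (l : ι) : (ι → V) × V ≃ (ι → V) × V where
  toFun p := (Function.update p.1 l p.2, p.1 l)
  invFun p := (Function.update p.1 l p.2, p.1 l)
  left_inv p := by simp
  right_inv p := by simp

theorem sum_sw (l : ι) (h : (ι → V) → V → ℝ) :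
    ∑ w : ι → V, ∑ v : V, h (Function.update w l v) (w l) = ∑ w : ι → V, ∑ v : V, h w v := by
  have h1 := Equiv.sum_comp (sw (V := V) l) (fun p : (ι → V) × V => h p.1 p.2)
  rw [Fintype.sum_prod_type, Fintype.sum_prod_type] at h1
  exact h1

/-- summing over the value at `l` again -/
theorem sum_update (l : ι) (h : (ι → V) → ℝ) :
    ∑ w : ι → V, ∑ v : V, h (Function.update w l v) = (Fintype.card V : ℝ) * ∑ w, h w := by
  rw [sum_sw l (fun w _ => h w), mul_sum]
  refine sum_congr rfl fun w _ => ?_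
  rw [sum_const, card_univ, nsmul_eq_mul]

/-- the sign of the difference -/
noncomputable def ph (g : ι → V → ℝ) (l : ι) (u v : V) : ℝ :=
  (if g l u < g l v then 1 else 0) - (if g l v < g l u then 1 else 0)

theorem ph_anti (g : ι → V → ℝ) (l : ι) (u v : V) : ph g l v u = -ph g l u v := by
  unfold ph; ring

theorem abs_ph (g : ι → V → ℝ) (l : ι) (u v : V) : |ph g l u v| ≤ 1 := by
  unfold ph
  split_ifs <;> norm_num

/-- the mean sign -/
noncomputable def Ps (g : ι → V → ℝ) (l : ι) (u : V) : ℝ := ∑ v, ph g l u v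

theorem sum_Ps (g : ι → V → ℝ) (l : ι) : ∑ u, Ps g l u = 0 := by
  unfold Ps
  have h1 : ∑ u : V, ∑ v : V, ph g l u v = -∑ u : V, ∑ v : V, ph g l u v := by
    conv_lhs => rw [sum_comm]
    rw [← sum_neg_distrib]
    refine sum_congr rfl fun u _ => ?_
    rw [← sum_neg_distrib]
    exact sum_congr rfl fun v _ => ph_anti g l u v
  linarith

theorem abs_Ps (g : ι → V → ℝ) (l : ι) (u : V) : |Ps g l u| ≤ Fintype.card V := by
  unfold Ps
  refine (abs_sum_le_sum_abs _ _).trans ?_
  refine (sum_le_sum fun v _ => abs_ph g l u v).trans ?_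
  rw [sum_const, card_univ, nsmul_eq_mul, mul_one]

/-- **total influence** -/
theorem infl (g : ι → V → ℝ) (c : ℝ) :
    (∑ l, ∑ w : ι → V, ∑ v : V, if (c + ∑ i, g i (w i) ≤ 0 ∧
      0 < c + ∑ i, g i (Function.update w l v i)) then (1 : ℝ) else 0) ≤
      √(Fintype.card ι) / 2 * (Fintype.card V : ℝ) ^ (Fintype.card ι + 1) := by
  classical
  rcases isEmpty_or_nonempty V with hV | hV
  · have : ∑ l : ι, ∑ w : ι → V, ∑ v : V, (if (c + ∑ i, g i (w i) ≤ 0 ∧
      0 < c + ∑ i, g i (Function.update w l v i)) then (1 : ℝ) else 0) = 0 :=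
      sum_eq_zero fun l _ => sum_eq_zero fun w _ => by simp
    rw [this]
    positivity
  obtain ⟨M, hM⟩ : ∃ M : ℝ, M = (Fintype.card V : ℝ) := ⟨_, rfl⟩
  rw [← hM]
  have hM0 : 0 < M := by
    rw [hM]; exact_mod_cast Fintype.card_pos
  obtain ⟨F, hF⟩ : ∃ F : (ι → V) → ℝ, ∀ w, F w = if 0 < c + ∑ i, g i (w i) then 1 else 0 :=
    ⟨_, fun _ => rfl⟩
  have hF01 : ∀ w, 0 ≤ F w ∧ F w ≤ 1 := fun w => by
    rw [hF]; split_ifs <;> norm_num
  -- the sum after an exchange
  have hup : ∀ (w : ι → V) (l : ι) (v : V), ∑ i, g i (Function.update w l v i) =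
      ∑ i, g i (w i) + (g l v - g l (w l)) := by
    intro w l v
    rw [← add_sum_erase _ _ (mem_univ l), ← add_sum_erase univ (fun i => g i (w i)) (mem_univ l),
      Function.update_self]
    have : ∑ i ∈ univ.erase l, g i (Function.update w l v i) = ∑ i ∈ univ.erase l, g i (w i) :=
      sum_congr rfl fun i hi => by rw [Function.update_of_ne (ne_of_mem_erase hi)]
    rw [this]; ring
  have hkey : ∀ (w : ι → V) (l : ι) (v : V),
      (if (c + ∑ i, g i (w i) ≤ 0 ∧ 0 < c + ∑ i, g i (Function.update w l v i))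
        then (1 : ℝ) else 0) +
      (if (c + ∑ i, g i (Function.update w l v i) ≤ 0 ∧ 0 < c + ∑ i, g i (w i))
        then (1 : ℝ) else 0) = (F (Function.update w l v) - F w) * ph g l (w l) v := by
    intro w l v
    rw [hF, hF]
    have h1 := hup w l v
    unfold ph
    rcases lt_trichotomy (g l (w l)) (g l v) with h2 | h2 | h2
    · rw [if_pos h2, if_neg (not_lt.2 h2.le)]
      by_cases h3 : 0 < c + ∑ i, g i (w i)
      · have h4 : 0 < c + ∑ i, g i (Function.update w l v i) := by rw [h1]; linarith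
        rw [if_neg (fun h => absurd h3 (not_lt.2 h.1)), if_neg (fun h => absurd h4 (not_lt.2 h.1)),
          if_pos h3, if_pos h4]
        ring
      · by_cases h4 : 0 < c + ∑ i, g i (Function.update w l v i)
        · rw [if_pos ⟨not_lt.1 h3, h4⟩, if_neg (fun h => h3 h.2), if_neg h3, if_pos h4]
          ring
        · rw [if_neg (fun h => h4 h.2), if_neg (fun h => h3 h.2), if_neg h3, if_neg h4]
          ring
    · rw [if_neg h2.not_lt, if_neg h2.symm.not_lt]
      have h5 : c + ∑ i, g i (Function.update w l v i) = c + ∑ i, g i (w i) := by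
        rw [h1, h2]; ring
      rw [h5, if_neg (fun h => absurd h.2 (not_lt.2 h.1))]
      ring
    · rw [if_neg (not_lt.2 h2.le), if_pos h2]
      by_cases h3 : 0 < c + ∑ i, g i (w i)
      · by_cases h4 : 0 < c + ∑ i, g i (Function.update w l v i)
        · rw [if_neg (fun h => absurd h3 (not_lt.2 h.1)),
            if_neg (fun h => absurd h4 (not_lt.2 h.1)), if_pos h3, if_pos h4]
          ring
        · rw [if_neg (fun h => h4 h.2), if_pos ⟨not_lt.1 h4, h3⟩, if_pos h3, if_neg h4]
          ring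
      · have h4 : ¬ 0 < c + ∑ i, g i (Function.update w l v i) := by
          rw [h1]; push Not at h3 ⊢; linarith
        rw [if_neg (fun h => h4 h.2), if_neg (fun h => h3 h.2), if_neg h3, if_neg h4]
        ring
  -- one direction
  have hone : ∀ l : ι, (∑ w : ι → V, ∑ v : V, if (c + ∑ i, g i (w i) ≤ 0 ∧
      0 < c + ∑ i, g i (Function.update w l v i)) then (1 : ℝ) else 0) =
      -∑ w, F w * Ps g l (w l) := by
    intro l
    have h1 : (∑ w : ι → V, ∑ v : V, if (c + ∑ i, g i (Function.update w l v i) ≤ 0 ∧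
        0 < c + ∑ i, g i (w i)) then (1 : ℝ) else 0) =
        ∑ w : ι → V, ∑ v : V, if (c + ∑ i, g i (w i) ≤ 0 ∧
          0 < c + ∑ i, g i (Function.update w l v i)) then (1 : ℝ) else 0 := by
      have h2 := sum_sw (V := V) l (fun w v => if (c + ∑ i, g i (w i) ≤ 0 ∧
          0 < c + ∑ i, g i (Function.update w l v i)) then (1 : ℝ) else 0)
      rw [← h2]
      refine sum_congr rfl fun w _ => sum_congr rfl fun v _ => ?_
      rw [Function.update_idem, Function.update_eq_self]
    have h3 : ∑ w : ι → V, ∑ v : V, F (Function.update w l v) * ph g l (w l) v =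
        -∑ w : ι → V, ∑ v : V, F w * ph g l (w l) v := by
      have h4 := sum_sw (V := V) l (fun w v => F w * ph g l v (w l))
      simp only [Function.update_self] at h4
      rw [h4, ← sum_neg_distrib]
      refine sum_congr rfl fun w _ => ?_
      rw [← sum_neg_distrib]
      refine sum_congr rfl fun v _ => ?_
      rw [ph_anti g l (w l) v]; ring
    have h5 : ∑ w : ι → V, ∑ v : V, ((F (Function.update w l v) - F w) * ph g l (w l) v) =
        -2 * ∑ w : ι → V, ∑ v : V, F w * ph g l (w l) v := by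
      have : ∀ w : ι → V, ∑ v : V, ((F (Function.update w l v) - F w) * ph g l (w l) v) =
          ∑ v : V, F (Function.update w l v) * ph g l (w l) v - ∑ v : V, F w * ph g l (w l) v := by
        intro w
        rw [← sum_sub_distrib]
        exact sum_congr rfl fun v _ => by ring
      rw [sum_congr rfl fun w _ => this w, sum_sub_distrib, h3]
      ring
    have h6 : ∑ w : ι → V, ∑ v : V, F w * ph g l (w l) v = ∑ w, F w * Ps g l (w l) := by
      refine sum_congr rfl fun w _ => ?_
      rw [Ps, mul_sum]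
    have h7 := sum_congr rfl fun (w : ι → V) (_ : w ∈ (univ : Finset (ι → V))) =>
      sum_congr rfl fun (v : V) (_ : v ∈ (univ : Finset V)) => hkey w l v
    simp only [sum_add_distrib] at h7
    rw [h1, h5, h6] at h7
    linarith
  -- the sum of the mean signs
  obtain ⟨S, hS⟩ : ∃ S : (ι → V) → ℝ, ∀ w, S w = ∑ l, Ps g l (w l) := ⟨_, fun _ => rfl⟩
  have hz : ∀ (l : ι) (h : (ι → V) → ℝ), (∀ w v, h (Function.update w l v) = h w) →
      ∑ w : ι → V, Ps g l (w l) * h w = 0 := by
    intro l h hh
    have h1 := sum_update (V := V) l (fun w => Ps g l (w l) * h w)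
    simp only [Function.update_self, hh] at h1
    rw [← hM] at h1
    have h2 : ∑ w : ι → V, ∑ v : V, Ps g l v * h w = 0 :=
      sum_eq_zero fun w _ => by rw [← sum_mul, sum_Ps, zero_mul]
    rw [h2] at h1
    rcases mul_eq_zero.1 h1.symm with h3 | h3
    · exact absurd h3 hM0.ne'
    · exact h3
  have hS0 : ∑ w, S w = 0 := by
    rw [sum_congr rfl fun w _ => hS w, sum_comm]
    refine sum_eq_zero fun l _ => ?_
    have := hz l (fun _ => 1) (fun _ _ => rfl)
    simpa using this
  have hS2 : ∑ w, S w ^ 2 ≤ Fintype.card ι * (M ^ 2 * M ^ Fintype.card ι) := by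
    have h1 : ∀ w, S w ^ 2 = ∑ l, ∑ k, Ps g l (w l) * Ps g k (w k) := by
      intro w
      rw [sq, hS w, sum_mul_sum]
    rw [sum_congr rfl fun w _ => h1 w, sum_comm]
    have h2 : ∀ l : ι, ∑ w : ι → V, ∑ k, Ps g l (w l) * Ps g k (w k) ≤
        M ^ 2 * M ^ Fintype.card ι := by
      intro l
      rw [sum_comm, ← add_sum_erase _ _ (mem_univ l)]
      have h3 : ∑ k ∈ univ.erase l, ∑ w : ι → V, Ps g l (w l) * Ps g k (w k) = 0 := by
        refine sum_eq_zero fun k hk => ?_
        refine hz l (fun w => Ps g k (w k)) fun w v => ?_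
        rw [Function.update_of_ne (ne_of_mem_erase hk)]
      rw [h3, add_zero]
      have h4 : ∀ w : ι → V, Ps g l (w l) * Ps g l (w l) ≤ M ^ 2 := by
        intro w
        have h5 := abs_Ps g l (w l)
        rw [← hM] at h5
        rw [← sq, ← sq_abs]
        exact pow_le_pow_left₀ (abs_nonneg _) h5 2
      refine (sum_le_sum fun w _ => h4 w).trans ?_
      rw [sum_const, card_univ, Fintype.card_fun, nsmul_eq_mul]
      push_cast
      rw [← hM, mul_comm]
    refine (sum_le_sum fun l _ => h2 l).trans ?_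
    rw [sum_const, card_univ, nsmul_eq_mul]
  -- end
  have hT : (∑ l, ∑ w : ι → V, ∑ v : V, if (c + ∑ i, g i (w i) ≤ 0 ∧
      0 < c + ∑ i, g i (Function.update w l v i)) then (1 : ℝ) else 0) = -∑ w, F w * S w := by
    rw [sum_congr rfl fun l _ => hone l, sum_neg_distrib, sum_comm]
    congr 1
    refine sum_congr rfl fun w _ => ?_
    rw [hS w, mul_sum]
  rw [hT]
  have h1 : -∑ w, F w * S w ≤ (∑ w, |S w|) / 2 := by
    have h2 : ∀ w, -(F w * S w) ≤ (|S w| - S w) / 2 := by
      intro w
      obtain ⟨h3, h4⟩ := hF01 w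
      rcases le_total 0 (S w) with h5 | h5
      · rw [abs_of_nonneg h5]; nlinarith
      · rw [abs_of_nonpos h5]; nlinarith
    have h3 := sum_le_sum fun (w : ι → V) (_ : w ∈ (univ : Finset (ι → V))) => h2 w
    rw [sum_neg_distrib, ← sum_div, sum_sub_distrib, hS0, sub_zero] at h3
    exact h3
  refine h1.trans ?_
  have h2 : ∑ w, |S w| ≤ √(Fintype.card ι) * M ^ (Fintype.card ι + 1) := by
    have h3 : (∑ w, |S w|) ^ 2 ≤ (M ^ Fintype.card ι) * ∑ w, S w ^ 2 := by
      have h4 := sq_sum_le_card_mul_sum_sq (s := (univ : Finset (ι → V))) (f := fun w => |S w|)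
      rw [card_univ, Fintype.card_fun] at h4
      push_cast at h4
      rw [← hM] at h4
      simpa [sq_abs] using h4
    have h5 : (∑ w, |S w|) ^ 2 ≤ (√(Fintype.card ι) * M ^ (Fintype.card ι + 1)) ^ 2 := by
      refine h3.trans ?_
      refine (mul_le_mul_of_nonneg_left hS2 (by positivity)).trans (le_of_eq ?_)
      rw [mul_pow, Real.sq_sqrt (Nat.cast_nonneg _)]
      ring
    exact le_of_sq_le_sq h5 (by positivity)
  calc (∑ w, |S w|) / 2 ≤ (√(Fintype.card ι) * M ^ (Fintype.card ι + 1)) / 2 := by linarith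
    _ = _ := by ring

end Pool.Agent.Helper62.EV
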