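import Mathlib

/-!
# Influences of a threshold of a sum of independent terms: the sum of the squares
-/

set_option autoImplicit false

set_option linter.unusedSectionVars false

namespace Pool.Agent.Helper62.EV.Bes

open Finset

variable {ι : Type*} {V : ι → Type*} [Fintype ι] [DecidableEq ι] [∀ l, Fintype (V l)]

/-- exchange the value at `l` -/
def sw (l : ι) : (∀ i, V i) × V l ≃ (∀ i, V i) × V l where
  toFun p := (Function.update p.1 l p.2, p.1 l)
  invFun p := (Function.update p.1 l p.2, p.1 l)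
  left_inv p := by simp
  right_inv p := by simp

theorem sum_sw (l : ι) (h : (∀ i, V i) → V l → ℝ) :
    ∑ w : ∀ i, V i, ∑ v : V l, h (Function.update w l v) (w l) =
      ∑ w : ∀ i, V i, ∑ v : V l, h w v := by
  have h1 := Equiv.sum_comp (sw (V := V) l) (fun p : (∀ i, V i) × V l => h p.1 p.2)
  rw [Fintype.sum_prod_type, Fintype.sum_prod_type] at h1
  exact h1

/-- summing over the value at `l` again -/
theorem sum_update (l : ι) (h : (∀ i, V i) → ℝ) :
    ∑ w : ∀ i, V i, ∑ v : V l, h (Function.update w l v) = (Fintype.card (V l) : ℝ) * ∑ w, h w := by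
  rw [sum_sw l (fun w _ => h w), mul_sum]
  refine sum_congr rfl fun w _ => ?_
  rw [sum_const, card_univ, nsmul_eq_mul]

/-- the sign of the difference -/
noncomputable def ph (g : ∀ i, V i → ℝ) (l : ι) (u v : V l) : ℝ :=
  (if g l u < g l v then 1 else 0) - (if g l v < g l u then 1 else 0)

theorem ph_anti (g : ∀ i, V i → ℝ) (l : ι) (u v : V l) : ph g l v u = -ph g l u v := by
  unfold ph; ring

theorem abs_ph (g : ∀ i, V i → ℝ) (l : ι) (u v : V l) : |ph g l u v| ≤ 1 := by
  unfold ph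
  split_ifs <;> norm_num

/-- the mean sign -/
noncomputable def Ps (g : ∀ i, V i → ℝ) (l : ι) (u : V l) : ℝ := ∑ v, ph g l u v

theorem sum_Ps (g : ∀ i, V i → ℝ) (l : ι) : ∑ u, Ps g l u = 0 := by
  unfold Ps
  have h1 : ∑ u : V l, ∑ v : V l, ph g l u v = -∑ u : V l, ∑ v : V l, ph g l u v := by
    conv_lhs => rw [sum_comm]
    rw [← sum_neg_distrib]
    refine sum_congr rfl fun u _ => ?_
    rw [← sum_neg_distrib]
    exact sum_congr rfl fun v _ => ph_anti g l u v
  linarith

theorem abs_Ps (g : ∀ i, V i → ℝ) (l : ι) (u : V l) : |Ps g l u| ≤ Fintype.card (V l) := by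
  unfold Ps
  refine (abs_sum_le_sum_abs _ _).trans ?_
  refine (sum_le_sum fun v _ => abs_ph g l u v).trans ?_
  rw [sum_const, card_univ, nsmul_eq_mul, mul_one]

/-- the number of pairs at which the value at `l` switches the threshold on -/
noncomputable def cn (g : ∀ i, V i → ℝ) (c : ℝ) (l : ι) : ℝ :=
  ∑ w : ∀ i, V i, ∑ v : V l, if (c + ∑ i, g i (w i) ≤ 0 ∧
    0 < c + ∑ i, g i (Function.update w l v i)) then (1 : ℝ) else 0

theorem cn_eq (g : ∀ i, V i → ℝ) (c : ℝ) (l : ι) :
    cn g c l = -∑ w : ∀ i, V i, (if 0 < c + ∑ i, g i (w i) then (1 : ℝ) else 0) * Ps g l (w l) := by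
  classical
  obtain ⟨F, hF⟩ : ∃ F : (∀ i, V i) → ℝ, ∀ w, F w = if 0 < c + ∑ i, g i (w i) then 1 else 0 :=
    ⟨_, fun _ => rfl⟩
  have hup : ∀ (w : ∀ i, V i) (v : V l), ∑ i, g i (Function.update w l v i) =
      ∑ i, g i (w i) + (g l v - g l (w l)) := by
    intro w v
    rw [← add_sum_erase _ _ (mem_univ l), ← add_sum_erase univ (fun i => g i (w i)) (mem_univ l),
      Function.update_self]
    have : ∑ i ∈ univ.erase l, g i (Function.update w l v i) = ∑ i ∈ univ.erase l, g i (w i) :=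
      sum_congr rfl fun i hi => by rw [Function.update_of_ne (ne_of_mem_erase hi)]
    rw [this]; ring
  have hkey : ∀ (w : ∀ i, V i) (v : V l),
      (if (c + ∑ i, g i (w i) ≤ 0 ∧ 0 < c + ∑ i, g i (Function.update w l v i))
        then (1 : ℝ) else 0) +
      (if (c + ∑ i, g i (Function.update w l v i) ≤ 0 ∧ 0 < c + ∑ i, g i (w i))
        then (1 : ℝ) else 0) = (F (Function.update w l v) - F w) * ph g l (w l) v := by
    intro w v
    rw [hF, hF]
    have h1 := hup w v
    unfold ph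
    rcases lt_trichotomy (g l (w l)) (g l v) with h2 | h2 | h2
    · rw [if_pos h2, if_neg (not_lt.2 h2.le)]
      by_cases h3 : 0 < c + ∑ i, g i (w i)
      · have h4 : 0 < c + ∑ i, g i (Function.update w l v i) := by rw [h1]; linarith
        rw [if_neg (fun h => absurd h3 (not_lt.2 h.1)), if_neg (fun h => absurd h4 (not_lt.2 h.1)),
          if_pos h3, if_pos h4]
        ring
      · by_cases h4 : 0 < c + ∑ i, g i (Function.update w l v i)
        · rw [if_pos ⟨not_lt.1 h3, h4⟩, if_neg (fun h => h3 h.2), if_neg h3, if_pos h4]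
          ring
        · rw [if_neg (fun h => h4 h.2), if_neg (fun h => h3 h.2), if_neg h3, if_neg h4]
          ring
    · rw [if_neg h2.not_lt, if_neg h2.symm.not_lt]
      have h5 : c + ∑ i, g i (Function.update w l v i) = c + ∑ i, g i (w i) := by
        rw [h1, h2]; ring
      rw [h5, if_neg (fun h => absurd h.2 (not_lt.2 h.1))]
      ring
    · rw [if_neg (not_lt.2 h2.le), if_pos h2]
      by_cases h3 : 0 < c + ∑ i, g i (w i)
      · by_cases h4 : 0 < c + ∑ i, g i (Function.update w l v i)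
        · rw [if_neg (fun h => absurd h3 (not_lt.2 h.1)),
            if_neg (fun h => absurd h4 (not_lt.2 h.1)), if_pos h3, if_pos h4]
          ring
        · rw [if_neg (fun h => h4 h.2), if_pos ⟨not_lt.1 h4, h3⟩, if_pos h3, if_neg h4]
          ring
      · have h4 : ¬ 0 < c + ∑ i, g i (Function.update w l v i) := by
          rw [h1]; push Not at h3 ⊢; linarith
        rw [if_neg (fun h => h4 h.2), if_neg (fun h => h3 h.2), if_neg h3, if_neg h4]
        ring
  have h1 : (∑ w : ∀ i, V i, ∑ v : V l, if (c + ∑ i, g i (Function.update w l v i) ≤ 0 ∧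
      0 < c + ∑ i, g i (w i)) then (1 : ℝ) else 0) = cn g c l := by
    have h2 := sum_sw (V := V) l (fun w v => if (c + ∑ i, g i (w i) ≤ 0 ∧
        0 < c + ∑ i, g i (Function.update w l v i)) then (1 : ℝ) else 0)
    rw [cn, ← h2]
    refine sum_congr rfl fun w _ => sum_congr rfl fun v _ => ?_
    rw [Function.update_idem, Function.update_eq_self]
  have h3 : ∑ w : ∀ i, V i, ∑ v : V l, F (Function.update w l v) * ph g l (w l) v =
      -∑ w : ∀ i, V i, ∑ v : V l, F w * ph g l (w l) v := by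
    have h4 := sum_sw (V := V) l (fun w v => F w * ph g l v (w l))
    simp only [Function.update_self] at h4
    rw [h4, ← sum_neg_distrib]
    refine sum_congr rfl fun w _ => ?_
    rw [← sum_neg_distrib]
    refine sum_congr rfl fun v _ => ?_
    rw [ph_anti g l (w l) v]; ring
  have h5 : ∑ w : ∀ i, V i, ∑ v : V l, ((F (Function.update w l v) - F w) * ph g l (w l) v) =
      -2 * ∑ w : ∀ i, V i, ∑ v : V l, F w * ph g l (w l) v := by
    have : ∀ w : ∀ i, V i, ∑ v : V l, ((F (Function.update w l v) - F w) * ph g l (w l) v) =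
        ∑ v : V l, F (Function.update w l v) * ph g l (w l) v -
          ∑ v : V l, F w * ph g l (w l) v := by
      intro w
      rw [← sum_sub_distrib]
      exact sum_congr rfl fun v _ => by ring
    rw [sum_congr rfl fun w _ => this w, sum_sub_distrib, h3]
    ring
  have h6 : ∑ w : ∀ i, V i, ∑ v : V l, F w * ph g l (w l) v = ∑ w, F w * Ps g l (w l) := by
    refine sum_congr rfl fun w _ => ?_
    rw [Ps, mul_sum]
  have h7 := sum_congr rfl fun (w : ∀ i, V i) (_ : w ∈ (univ : Finset (∀ i, V i))) =>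
    sum_congr rfl fun (v : V l) (_ : v ∈ (univ : Finset (V l))) => hkey w v
  simp only [sum_add_distrib] at h7
  rw [h1, h5, h6] at h7
  have h8 : ∑ w : ∀ i, V i, (if 0 < c + ∑ i, g i (w i) then (1 : ℝ) else 0) * Ps g l (w l) =
      ∑ w, F w * Ps g l (w l) := sum_congr rfl fun w _ => by rw [hF]
  rw [h8]
  have h9 : cn g c l = ∑ w : ∀ i, V i, ∑ v : V l, if (c + ∑ i, g i (w i) ≤ 0 ∧
    0 < c + ∑ i, g i (Function.update w l v i)) then (1 : ℝ) else 0 := rfl
  rw [← h9] at h7
  linarith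

variable [∀ l, Nonempty (V l)]

theorem orth (g : ∀ i, V i → ℝ) (l : ι) (h : (∀ i, V i) → ℝ)
    (hh : ∀ w v, h (Function.update w l v) = h w) : ∑ w : ∀ i, V i, Ps g l (w l) * h w = 0 := by
  have h1 := sum_update (V := V) l (fun w => Ps g l (w l) * h w)
  simp only [Function.update_self, hh] at h1
  have h2 : ∑ w : ∀ i, V i, ∑ v : V l, Ps g l v * h w = 0 :=
    sum_eq_zero fun w _ => by rw [← sum_mul, sum_Ps, zero_mul]
  rw [h2] at h1
  rcases mul_eq_zero.1 h1.symm with h3 | h3
  · exact absurd h3 (by exact_mod_cast (Fintype.card_pos (α := V l)).ne')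
  · exact h3

/-- **Bessel's inequality for the influences** -/
theorem bessel (g : ∀ i, V i → ℝ) (c : ℝ) :
    ∑ l, (cn g c l / ((Fintype.card (∀ i, V i) : ℝ) * Fintype.card (V l))) ^ 2 ≤ 1 / 4 := by
  classical
  obtain ⟨P, hP⟩ : ∃ P : ℝ, P = (Fintype.card (∀ i, V i) : ℝ) := ⟨_, rfl⟩
  have hP0 : 0 < P := by
    rw [hP]; exact_mod_cast Fintype.card_pos
  have hM0 : ∀ l, 0 < (Fintype.card (V l) : ℝ) := fun l => by exact_mod_cast Fintype.card_pos
  rw [← hP]
  -- coefficients
  obtain ⟨a, ha⟩ : ∃ a : ι → ℝ, ∀ l, a l = cn g c l / (P * Fintype.card (V l)) := ⟨_, fun _ => rfl⟩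
  obtain ⟨F, hF⟩ : ∃ F : (∀ i, V i) → ℝ, ∀ w, F w =
      (if 0 < c + ∑ i, g i (w i) then (1 : ℝ) else 0) - 1 / 2 := ⟨_, fun _ => rfl⟩
  have hPs0 : ∀ l, ∑ w : ∀ i, V i, Ps g l (w l) = 0 := fun l => by
    have := orth g l (fun _ => 1) (fun _ _ => rfl)
    simpa using this
  have hcn : ∀ l, cn g c l = -∑ w : ∀ i, V i, F w * Ps g l (w l) := by
    intro l
    rw [cn_eq]
    congr 1
    have : ∀ w : ∀ i, V i, F w * Ps g l (w l) =
        (if 0 < c + ∑ i, g i (w i) then (1 : ℝ) else 0) * Ps g l (w l) -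
          1 / 2 * Ps g l (w l) := fun w => by rw [hF]; ring
    rw [sum_congr rfl fun w _ => this w, sum_sub_distrib, ← mul_sum, hPs0, mul_zero, sub_zero]
  -- the normalised mean signs
  obtain ⟨X, hX⟩ : ∃ X : ι → (∀ i, V i) → ℝ, ∀ l w, X l w = Ps g l (w l) / Fintype.card (V l) :=
    ⟨_, fun _ _ => rfl⟩
  have hX1 : ∀ l w, X l w ^ 2 ≤ 1 := fun l w => by
    rw [hX, ← sq_abs, abs_div, Nat.abs_cast]
    have h1 : |Ps g l (w l)| / Fintype.card (V l) ≤ 1 := (div_le_one (hM0 l)).2 (abs_Ps g l (w l))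
    have h2 : 0 ≤ |Ps g l (w l)| / Fintype.card (V l) := by positivity
    nlinarith
  have hXo : ∀ l k, l ≠ k → ∑ w, X l w * X k w = 0 := by
    intro l k hlk
    have h1 := orth g l (fun w => Ps g k (w k)) (fun w v => by
      rw [Function.update_of_ne (Ne.symm hlk)])
    have h2 : ∀ w, X l w * X k w = Ps g l (w l) * Ps g k (w k) *
        (1 / (Fintype.card (V l) * Fintype.card (V k))) := fun w => by
      rw [hX, hX]; field_simp
    rw [sum_congr rfl fun w _ => h2 w, ← sum_mul, h1, zero_mul]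
  have haX : ∀ l, ∑ w, F w * X l w = -P * a l := by
    intro l
    have h2 : ∀ w, F w * X l w = F w * Ps g l (w l) * (1 / Fintype.card (V l)) := fun w => by
      rw [hX]; ring
    rw [sum_congr rfl fun w _ => h2 w, ← sum_mul, ha, hcn]
    have := (hM0 l).ne'
    field_simp
  -- the square
  have hsq : 0 ≤ ∑ w, (F w + ∑ l, a l * X l w) ^ 2 := sum_nonneg fun w _ => sq_nonneg _
  have hexp : ∀ w, (F w + ∑ l, a l * X l w) ^ 2 = F w ^ 2 + 2 * ∑ l, a l * (F w * X l w) +
      ∑ l, ∑ k, a l * a k * (X l w * X k w) := by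
    intro w
    have h1 : (∑ l, a l * X l w) ^ 2 = ∑ l, ∑ k, a l * a k * (X l w * X k w) := by
      rw [sq, sum_mul_sum]
      exact sum_congr rfl fun l _ => sum_congr rfl fun k _ => by ring
    have h2 : F w * ∑ l, a l * X l w = ∑ l, a l * (F w * X l w) := by
      rw [mul_sum]
      exact sum_congr rfl fun l _ => by ring
    rw [← h1, ← h2]; ring
  rw [sum_congr rfl fun w _ => hexp w, sum_add_distrib, sum_add_distrib, ← mul_sum] at hsq
  have h1 : ∑ w, ∑ l, a l * (F w * X l w) = -P * ∑ l, a l ^ 2 := by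
    rw [sum_comm, mul_sum]
    refine sum_congr rfl fun l _ => ?_
    rw [← mul_sum, haX]; ring
  have h2 : ∑ w, ∑ l, ∑ k, a l * a k * (X l w * X k w) ≤ P * ∑ l, a l ^ 2 := by
    rw [sum_comm, mul_sum]
    refine sum_le_sum fun l _ => ?_
    rw [sum_comm, ← add_sum_erase _ _ (mem_univ l)]
    have h3 : ∑ k ∈ univ.erase l, ∑ w, a l * a k * (X l w * X k w) = 0 :=
      sum_eq_zero fun k hk => by
        rw [← mul_sum, hXo l k (Ne.symm (ne_of_mem_erase hk)), mul_zero]
    rw [h3, add_zero, ← mul_sum]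
    have h4 : ∑ w, X l w * X l w ≤ P := by
      have : ∀ w, X l w * X l w ≤ 1 := fun w => by rw [← sq]; exact hX1 l w
      refine (sum_le_sum fun w _ => this w).trans ?_
      rw [sum_const, card_univ, nsmul_eq_mul, mul_one, ← hP]
    calc a l * a l * ∑ w, X l w * X l w ≤ a l * a l * P :=
          mul_le_mul_of_nonneg_left h4 (mul_self_nonneg _)
      _ = P * a l ^ 2 := by ring
  have h5 : ∑ w, F w ^ 2 ≤ P / 4 := by
    have : ∀ w, F w ^ 2 ≤ 1 / 4 := fun w => by
      rw [hF]; split_ifs <;> norm_num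
    refine (sum_le_sum fun w _ => this w).trans ?_
    rw [sum_const, card_univ, nsmul_eq_mul, ← hP]
    linarith
  have h6 : ∑ l, (cn g c l / (P * Fintype.card (V l))) ^ 2 = ∑ l, a l ^ 2 :=
    sum_congr rfl fun l _ => by rw [ha]
  rw [h6]
  rw [h1] at hsq
  have h7 : P * ∑ l, a l ^ 2 ≤ P * (1 / 4) := by linarith
  exact le_of_mul_le_mul_left h7 hP0

end Pool.Agent.Helper62.EV.Bes
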